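import Pool.Agent.W23.KS.Defs
import Pool.Agent.W74.SG.BLFa

/-!
KS project, task BX0K (helper976): the Bessel inequality for the sifting indicator of systems of
`k` linear forms (adapted from `Pool/Agent/W586/PL/BX0.lean`).
-/

namespace Pool.Agent.W976.KS

open Finset Filter
open Pool.Agent.H442R2
open Pool.Agent.H442R2.KF
open Pool.Agent.W23.DC
open Pool.Agent.W23.SG
open Pool.Agent.W23.PL
open Pool.Agent.W23.KT
open Pool.Agent.W23.KS

namespace TaskBX0K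

/-- bounded functions -/
def Bd (g : ℤ → ℝ) : Prop := ∃ K : ℝ, ∀ n, |g n| ≤ K

lemma Bd.mul {g g' : ℤ → ℝ} (h : Bd g) (h' : Bd g') : Bd (fun n => g n * g' n) := by
  obtain ⟨K, hK⟩ := h
  obtain ⟨K', hK'⟩ := h'
  have h0 : 0 ≤ K := (abs_nonneg _).trans (hK 0)
  refine ⟨K * K', fun n => ?_⟩
  rw [abs_mul]
  exact mul_le_mul (hK n) (hK' n) (abs_nonneg _) h0

lemma Bd.add {g g' : ℤ → ℝ} (h : Bd g) (h' : Bd g') : Bd (fun n => g n + g' n) := by
  obtain ⟨K, hK⟩ := h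
  obtain ⟨K', hK'⟩ := h'
  exact ⟨K + K', fun n => (abs_add_le _ _).trans (add_le_add (hK n) (hK' n))⟩

lemma Bd.sub {g g' : ℤ → ℝ} (h : Bd g) (h' : Bd g') : Bd (fun n => g n - g' n) := by
  obtain ⟨K, hK⟩ := h
  obtain ⟨K', hK'⟩ := h'
  exact ⟨K + K', fun n => (abs_sub _ _).trans (add_le_add (hK n) (hK' n))⟩

lemma Bd.const (c : ℝ) : Bd (fun _ => c) := ⟨|c|, fun _ => le_rfl⟩

section

variable {w : ℤ → ℝ} (hw : Summable w) (hw0 : ∀ n, 0 ≤ w n)
include hw hw0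

lemma summ {g : ℤ → ℝ} (hg : Bd g) : Summable (fun n => w n * g n) := by
  obtain ⟨K, hK⟩ := hg
  refine Summable.of_norm_bounded (g := fun n => w n * K) (hw.mul_right K) (fun n => ?_)
  rw [Real.norm_eq_abs, abs_mul, abs_of_nonneg (hw0 n)]
  exact mul_le_mul_of_nonneg_left (hK n) (hw0 n)

lemma mono {g g' : ℤ → ℝ} (hg : Bd g) (hg' : Bd g') (h : ∀ n, g n ≤ g' n) :
    ∑' n, w n * g n ≤ ∑' n, w n * g' n :=
  Summable.tsum_le_tsum (fun n => mul_le_mul_of_nonneg_left (h n) (hw0 n)) (summ hw hw0 hg)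
    (summ hw hw0 hg')

lemma tadd {g g' : ℤ → ℝ} (hg : Bd g) (hg' : Bd g') :
    ∑' n, w n * (g n + g' n) = ∑' n, w n * g n + ∑' n, w n * g' n := by
  rw [← Summable.tsum_add (summ hw hw0 hg) (summ hw hw0 hg')]
  exact tsum_congr fun n => by ring

omit hw hw0 in
lemma tmul (c : ℝ) (g : ℤ → ℝ) : ∑' n, w n * (c * g n) = c * ∑' n, w n * g n := by
  rw [← tsum_mul_left]
  exact tsum_congr fun n => by ring

/-- the off-diagonal terms -/
lemma core_off {x x' Θ Θ' Δ Δ' : ℤ → ℝ} {T M M' md md' V V' ρ E : ℝ}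
    (hx0 : ∀ n, 0 ≤ x n) (hx1 : ∀ n, x n ≤ 1) (hxT : ∀ n, x n ≤ Θ n) (hxD : ∀ n, Θ n - x n ≤ Δ n)
    (hx0' : ∀ n, 0 ≤ x' n) (hx1' : ∀ n, x' n ≤ 1) (hxT' : ∀ n, x' n ≤ Θ' n)
    (hxD' : ∀ n, Θ' n - x' n ≤ Δ' n)
    (bT : Bd Θ) (bT' : Bd Θ') (bD : Bd Δ) (bD' : Bd Δ')
    (h22 : |∑' n, w n * (Θ n * Θ' n) - T * (M * M')| ≤ E)
    (hD2 : |∑' n, w n * (Δ n * Θ' n) - T * (md * M')| ≤ E)
    (h2D : |∑' n, w n * (Θ n * Δ' n) - T * (M * md')| ≤ E)
    (h1 : |∑' n, w n * Θ n - T * M| ≤ E) (h1' : |∑' n, w n * Θ' n - T * M'| ≤ E)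
    (hd : |∑' n, w n * Δ n - T * md| ≤ E) (hd' : |∑' n, w n * Δ' n - T * md'| ≤ E)
    (h0 : |∑' n, w n * 1 - T| ≤ E)
    (hM : |M - V| ≤ ρ * V) (hmd : |md| ≤ ρ * V)
    (hM' : |M' - V'| ≤ ρ * V') (hmd' : |md'| ≤ ρ * V')
    (hρ0 : 0 ≤ ρ) (hρ1 : ρ ≤ 1) (hV0 : 0 ≤ V)
    (hV1 : V ≤ 1) (hV0' : 0 ≤ V') (hV1' : V' ≤ 1) :
    |∑' n, w n * ((x n - V) * (x' n - V'))| ≤ 7 * (|T| * (ρ * (V * V'))) + 8 * E := by
  have bx : Bd x := ⟨1, fun n => by rw [abs_of_nonneg (hx0 n)]; exact hx1 n⟩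
  have bx' : Bd x' := ⟨1, fun n => by rw [abs_of_nonneg (hx0' n)]; exact hx1' n⟩
  have hE : 0 ≤ E := (abs_nonneg _).trans h0
  set a1 := ∑' n, w n * (x n * x' n) with ha1
  set a2 := ∑' n, w n * x n with ha2
  set a3 := ∑' n, w n * x' n with ha3
  set a0 := ∑' n, w n * (1 : ℝ) with ha0
  have hval : ∑' n, w n * ((x n - V) * (x' n - V')) =
      a1 - V' * a2 - V * a3 + V * V' * a0 := by
    have e : ∀ n, w n * ((x n - V) * (x' n - V')) =
        w n * ((x n * x' n + (-V') * x n) + ((-V) * x' n + V * V' * 1)) := fun n => by ring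
    rw [tsum_congr e,
      tadd hw hw0 ((bx.mul bx').add ((Bd.const (-V')).mul bx))
        (((Bd.const (-V)).mul bx').add ((Bd.const (V * V')).mul (Bd.const 1))),
      tadd hw hw0 (bx.mul bx') ((Bd.const (-V')).mul bx),
      tadd hw hw0 ((Bd.const (-V)).mul bx') ((Bd.const (V * V')).mul (Bd.const 1)), tmul, tmul,
      tmul]
    ring
  have u1 : a1 ≤ ∑' n, w n * (Θ n * Θ' n) :=
    mono hw hw0 (bx.mul bx') (bT.mul bT') fun n =>
      mul_le_mul (hxT n) (hxT' n) (hx0' n) ((hx0 n).trans (hxT n))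
  have l1 : ∑' n, w n * (Θ n * Θ' n) ≤
      a1 + (∑' n, w n * (Δ n * Θ' n) + ∑' n, w n * (Θ n * Δ' n)) := by
    rw [ha1, ← tadd hw hw0 (bD.mul bT') (bT.mul bD'),
      ← tadd hw hw0 (bx.mul bx') ((bD.mul bT').add (bT.mul bD'))]
    refine mono hw hw0 (bT.mul bT') ((bx.mul bx').add ((bD.mul bT').add (bT.mul bD'))) fun n => ?_
    have t0 : 0 ≤ Θ n := (hx0 n).trans (hxT n)
    have t0' : 0 ≤ Θ' n := (hx0' n).trans (hxT' n)
    have d0' : 0 ≤ Δ' n := by linarith [hxD' n, hxT' n]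
    have s1 : (Θ n - x n) * Θ' n ≤ Δ n * Θ' n := mul_le_mul_of_nonneg_right (hxD n) t0'
    have s2 : x n * (Θ' n - x' n) ≤ x n * Δ' n := mul_le_mul_of_nonneg_left (hxD' n) (hx0 n)
    have s3 : x n * Δ' n ≤ Θ n * Δ' n := mul_le_mul_of_nonneg_right (hxT n) d0'
    linarith
  have u2 : a2 ≤ ∑' n, w n * Θ n := mono hw hw0 bx bT hxT
  have l2 : ∑' n, w n * Θ n ≤ a2 + ∑' n, w n * Δ n := by
    rw [ha2, ← tadd hw hw0 bx bD]
    exact mono hw hw0 bT (bx.add bD) fun n => by linarith [hxD n]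
  have u3 : a3 ≤ ∑' n, w n * Θ' n := mono hw hw0 bx' bT' hxT'
  have l3 : ∑' n, w n * Θ' n ≤ a3 + ∑' n, w n * Δ' n := by
    rw [ha3, ← tadd hw hw0 bx' bD']
    exact mono hw hw0 bT' (bx'.add bD') fun n => by linarith [hxD' n]
  rw [hval]
  obtain ⟨p1, p2⟩ := abs_le.1 h22
  obtain ⟨p3, p4⟩ := abs_le.1 hD2
  obtain ⟨p5, p6⟩ := abs_le.1 h2D
  obtain ⟨p7, p8⟩ := abs_le.1 h1
  obtain ⟨p9, p10⟩ := abs_le.1 h1'
  obtain ⟨p11, p12⟩ := abs_le.1 hd
  obtain ⟨p13, p14⟩ := abs_le.1 hd'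
  obtain ⟨p15, p16⟩ := abs_le.1 h0
  -- bounds for a2, a3
  have b2u : V' * a2 ≤ V' * (T * M + E) := mul_le_mul_of_nonneg_left (by linarith) hV0'
  have b2l : V' * (T * M - T * md - 2 * E) ≤ V' * a2 :=
    mul_le_mul_of_nonneg_left (by linarith) hV0'
  have b3u : V * a3 ≤ V * (T * M' + E) := mul_le_mul_of_nonneg_left (by linarith) hV0
  have b3l : V * (T * M' - T * md' - 2 * E) ≤ V * a3 := mul_le_mul_of_nonneg_left (by linarith) hV0
  have hV2 : 0 ≤ V * V' := mul_nonneg hV0 hV0'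
  have b0u : V * V' * a0 ≤ V * V' * (T + E) := mul_le_mul_of_nonneg_left (by linarith) hV2
  have b0l : V * V' * (T - E) ≤ V * V' * a0 := mul_le_mul_of_nonneg_left (by linarith) hV2
  have hV21 : V * V' ≤ 1 := mul_le_one₀ hV1 hV0' hV1'
  have e1 : V * E ≤ E := by nlinarith
  have e1' : V' * E ≤ E := by nlinarith
  have e2 : V * V' * E ≤ E := by nlinarith
  have e3 : 0 ≤ V * E := mul_nonneg hV0 hE
  have e3' : 0 ≤ V' * E := mul_nonneg hV0' hE
  have e4 : 0 ≤ V * V' * E := mul_nonneg hV2 hE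
  set Q := |T| * (ρ * (V * V')) with hQ
  have hQ0 : 0 ≤ Q := by positivity
  -- the three main quantities
  have q1 : |T * ((M - V) * (M' - V'))| ≤ Q := by
    rw [abs_mul, abs_mul, hQ]
    apply mul_le_mul_of_nonneg_left _ (abs_nonneg T)
    calc |M - V| * |M' - V'| ≤ (ρ * V) * (ρ * V') := mul_le_mul hM hM' (abs_nonneg _) (by positivity)
      _ = ρ * (ρ * (V * V')) := by ring
      _ ≤ 1 * (ρ * (V * V')) := mul_le_mul_of_nonneg_right hρ1 (by positivity)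
      _ = ρ * (V * V') := one_mul _
  have hM2 : |M| ≤ 2 * V := by
    have h5 := abs_le.1 hM
    have h6 : ρ * V ≤ V := by nlinarith
    rw [abs_le]
    constructor <;> linarith [h5.1, h5.2]
  have hM2' : |M'| ≤ 2 * V' := by
    have h5 := abs_le.1 hM'
    have h6 : ρ * V' ≤ V' := by nlinarith
    rw [abs_le]
    constructor <;> linarith [h5.1, h5.2]
  have q2 : |T * (md * M')| ≤ 2 * Q := by
    rw [abs_mul, abs_mul, hQ]
    have : |md| * |M'| ≤ (ρ * V) * (2 * V') := mul_le_mul hmd hM2' (abs_nonneg _) (by positivity)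
    calc |T| * (|md| * |M'|) ≤ |T| * ((ρ * V) * (2 * V')) :=
          mul_le_mul_of_nonneg_left this (abs_nonneg T)
      _ = _ := by ring
  have q2' : |T * (M * md')| ≤ 2 * Q := by
    rw [abs_mul, abs_mul, hQ]
    have : |M| * |md'| ≤ (2 * V) * (ρ * V') := mul_le_mul hM2 hmd' (abs_nonneg _) (by positivity)
    calc |T| * (|M| * |md'|) ≤ |T| * ((2 * V) * (ρ * V')) :=
          mul_le_mul_of_nonneg_left this (abs_nonneg T)
      _ = _ := by ring
  have q3 : |V' * (T * md)| ≤ Q := by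
    rw [abs_mul, abs_mul, hQ, abs_of_nonneg hV0']
    calc V' * (|T| * |md|) ≤ V' * (|T| * (ρ * V)) := by gcongr
      _ = _ := by ring
  have q3' : |V * (T * md')| ≤ Q := by
    rw [abs_mul, abs_mul, hQ, abs_of_nonneg hV0]
    calc V * (|T| * |md'|) ≤ V * (|T| * (ρ * V')) := by gcongr
      _ = _ := by ring
  obtain ⟨r1, r2⟩ := abs_le.1 q1
  obtain ⟨r3, r4⟩ := abs_le.1 q2
  obtain ⟨r3', r4'⟩ := abs_le.1 q2'
  obtain ⟨r5, r6⟩ := abs_le.1 q3
  obtain ⟨r5', r6'⟩ := abs_le.1 q3'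
  rw [abs_le]
  constructor
  · linarith [b2u, b3u, b0l, u1, l1, e1, e1', e2]
  · linarith [b2l, b3l, b0u, u1, l1, e1, e1', e2]

/-- the diagonal terms -/
lemma core_diag {x Θ : ℤ → ℝ} {T M V ρ E : ℝ}
    (hx0 : ∀ n, 0 ≤ x n) (hx1 : ∀ n, x n ≤ 1) (hxT : ∀ n, x n ≤ Θ n) (bT : Bd Θ)
    (h1 : |∑' n, w n * Θ n - T * M| ≤ E) (h0 : |∑' n, w n * 1 - T| ≤ E)
    (hM : |M - V| ≤ ρ * V) (hρ1 : ρ ≤ 1) (hV0 : 0 ≤ V) (hV1 : V ≤ 1) :
    ∑' n, w n * ((x n - V) * (x n - V)) ≤ 3 * (|T| * V) + 2 * E := by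
  have bx : Bd x := ⟨1, fun n => by rw [abs_of_nonneg (hx0 n)]; exact hx1 n⟩
  have hE : 0 ≤ E := (abs_nonneg _).trans h0
  have h2 : ∑' n, w n * ((x n - V) * (x n - V)) ≤ ∑' n, w n * (Θ n + V ^ 2 * 1) := by
    refine mono hw hw0 ((bx.sub (Bd.const V)).mul (bx.sub (Bd.const V)))
      (bT.add ((Bd.const (V ^ 2)).mul (Bd.const 1))) fun n => ?_
    have a := hx0 n
    have b := hx1 n
    have c := hxT n
    nlinarith [mul_nonneg a hV0]
  rw [tadd hw hw0 bT ((Bd.const (V ^ 2)).mul (Bd.const 1)), tmul] at h2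
  have hV2 : 0 ≤ V ^ 2 := sq_nonneg V
  have hV21 : V ^ 2 ≤ 1 := pow_le_one₀ hV0 hV1
  have h3 := (abs_le.1 h1).2
  have h4 := (abs_le.1 h0).2
  have b0u : V ^ 2 * ∑' n, w n * (1 : ℝ) ≤ V ^ 2 * (T + E) :=
    mul_le_mul_of_nonneg_left (by linarith) hV2
  have hM2 : |M| ≤ 2 * V := by
    have h5 := abs_le.1 hM
    have h6 : ρ * V ≤ V := by nlinarith
    rw [abs_le]
    constructor <;> linarith [h5.1, h5.2]
  have h5 : T * M ≤ |T| * (2 * V) := by
    calc T * M ≤ |T * M| := le_abs_self _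
      _ = |T| * |M| := abs_mul _ _
      _ ≤ |T| * (2 * V) := mul_le_mul_of_nonneg_left hM2 (abs_nonneg _)
  have h6 : V ^ 2 * T ≤ |T| * V := by
    calc V ^ 2 * T ≤ V ^ 2 * |T| := mul_le_mul_of_nonneg_left (le_abs_self _) hV2
      _ = (|T| * V) * V := by ring
      _ ≤ (|T| * V) * 1 := mul_le_mul_of_nonneg_left hV1 (by positivity)
      _ = _ := mul_one _
  nlinarith

end

/-- the trivial coefficient -/
def th1 (e : ℕ) : ℝ := if e = 1 then 1 else 0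

lemma Ev_th1 {D : ℕ} (hD : 1 ≤ D) (m : ℤ) : Ev th1 D m = 1 := by
  unfold Ev
  rw [Finset.sum_eq_single 1]
  · simp [th1]
  · intro b _ hb
    simp [th1, hb]
  · intro h
    exact absurd (mem_Icc.2 ⟨le_rfl, hD⟩) h

lemma hatk_th1 {k D : ℕ} (hD : 1 ≤ D) : hatk k th1 D = 1 := by
  unfold hatk
  rw [Finset.sum_eq_single 1]
  · simp [th1, kw]
  · intro b _ hb
    simp [th1, hb]
  · intro h
    exact absurd (mem_Icc.2 ⟨le_rfl, hD⟩) h

lemma dw_th1 {P : Finset ℕ} {D : ℕ} {U : ℝ} (hD : 1 ≤ D) (hU : 1 ≤ U) : DW P D U th1 := by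
  refine ⟨fun e => ?_, fun e he => ?_⟩
  · unfold th1
    split_ifs
    · rw [abs_one]; exact hU
    · rw [abs_zero]; linarith
  · have h1 : e = 1 := by
      by_contra h
      exact he (by simp [th1, h])
    subst h1
    exact ⟨squarefree_one, hD, fun p hp h => absurd (Nat.dvd_one.1 h) hp.one_lt.ne'⟩

lemma Bd_Ev (th : ℕ → ℝ) (D : ℕ) (g : ℤ → ℤ) : Bd (fun n => Ev th D (g n)) := by
  refine ⟨∑ e ∈ Icc 1 D, |th e|, fun n => ?_⟩
  unfold Ev
  refine (abs_sum_le_sum_abs _ _).trans (sum_le_sum fun e _ => ?_)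
  rw [abs_mul]
  have : |(if (e : ℤ) ∣ g n then (1 : ℝ) else 0)| ≤ 1 := by
    split_ifs <;> simp
  calc |th e| * _ ≤ |th e| * 1 := mul_le_mul_of_nonneg_left this (abs_nonneg _)
    _ = _ := mul_one _

lemma xx_nonneg (P : Finset ℕ) (m : ℤ) : 0 ≤ xx P m := by
  unfold xx; split_ifs <;> norm_num

lemma xx_le_one (P : Finset ℕ) (m : ℤ) : xx P m ≤ 1 := by
  unfold xx; split_ifs <;> norm_num

lemma Vk_range {k : ℕ} {P : Finset ℕ} (hP : ∀ p ∈ P, 0 < (p : ℝ) ∧ (k : ℝ) ≤ p) :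
    0 ≤ Vk k P ∧ Vk k P ≤ 1 := by
  have h : ∀ p ∈ P, 0 ≤ 1 - (k : ℝ) / (p : ℝ) ∧ 1 - (k : ℝ) / (p : ℝ) ≤ 1 := by
    intro p hp
    obtain ⟨h1, h2⟩ := hP p hp
    have h3 : (k : ℝ) / (p : ℝ) ≤ 1 := by rw [div_le_one h1]; exact h2
    have h4 : 0 ≤ (k : ℝ) / (p : ℝ) := by positivity
    constructor <;> linarith
  exact ⟨Finset.prod_nonneg fun p hp => (h p hp).1,
    Finset.prod_le_one (fun p hp => (h p hp).1) fun p hp => (h p hp).2⟩

/-- elementary estimate of the error term -/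
lemma err_le {C ρ L x V y : ℝ} {B k e : ℕ} (hC : 0 < C) (hρ : 0 < ρ) (hL : 2 ≤ L)
    (hx : L ^ (2 * k + 6) ≤ x)
    (hK : 16 * C / ρ + 4 / ρ ≤ L) (hV : 1 / L ^ k ≤ V) (hB : e + 2 * k + 10 ≤ B) (hy : y = L ^ B) :
    8 * (C * L ^ 2 * (x * L ^ e / y + 1)) ≤ ρ * V ^ 2 * (x / L) ∧
      2 * x ≤ ρ * V ^ 2 * (x / L) ^ 2 := by
  have hL0 : 0 < L := by linarith
  have hL1 : 1 ≤ L := by linarith
  have hx0 : 0 < x := lt_of_lt_of_le (by positivity) hx
  have hV2 : 1 / L ^ (2 * k) ≤ V ^ 2 := by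
    have := pow_le_pow_left₀ (by positivity) hV 2
    rwa [div_pow, one_pow, ← pow_mul, mul_comm k 2] at this
  have h1 : ρ * (1 / L ^ (2 * k)) * (x / L) ≤ ρ * V ^ 2 * (x / L) := by gcongr
  have h2 : x * L ^ e / y ≤ x / L ^ (2 * k + 10) := by
    rw [hy, div_le_div_iff₀ (by positivity) (by positivity)]
    have : L ^ (e + (2 * k + 10)) ≤ L ^ B := pow_le_pow_right₀ hL1 (by omega)
    calc x * L ^ e * L ^ (2 * k + 10) = x * L ^ (e + (2 * k + 10)) := by rw [pow_add]; ring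
      _ ≤ x * L ^ B := mul_le_mul_of_nonneg_left this hx0.le
  have hKC : 16 * C ≤ ρ * L := by
    have h3 : 0 ≤ 4 / ρ := by positivity
    have h4 : 16 * C / ρ ≤ L := by linarith
    rw [div_le_iff₀ hρ] at h4
    linarith
  have hKρ : 4 ≤ ρ * L := by
    have h3 : 0 ≤ 16 * C / ρ := by positivity
    have h4 : 4 / ρ ≤ L := by linarith
    rw [div_le_iff₀ hρ] at h4
    linarith
  have hLk : 0 < L ^ (2 * k) := by positivity
  constructor
  · refine le_trans ?_ h1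
    have h3 : 8 * (C * L ^ 2 * (x * L ^ e / y + 1)) ≤
        8 * (C * L ^ 2 * (x / L ^ (2 * k + 10) + 1)) := by
      gcongr
    refine h3.trans ?_
    have h4 : 8 * (C * L ^ 2 * (x / L ^ (2 * k + 10))) ≤
        1 / 2 * (ρ * (1 / L ^ (2 * k)) * (x / L)) := by
      have e1 : 8 * (C * L ^ 2 * (x / L ^ (2 * k + 10))) =
          (16 * C) * (x / (2 * (L ^ (2 * k) * L ^ 8))) := by
        rw [pow_add]
        field_simp
        ring
      have e2 : 1 / 2 * (ρ * (1 / L ^ (2 * k)) * (x / L)) =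
          (ρ * L) * (x / (2 * (L ^ (2 * k) * L ^ 2))) := by
        field_simp
      rw [e1, e2]
      have h5 : x / (2 * (L ^ (2 * k) * L ^ 8)) ≤ x / (2 * (L ^ (2 * k) * L ^ 2)) := by
        apply div_le_div_of_nonneg_left hx0.le (by positivity)
        have : L ^ 2 ≤ L ^ 8 := pow_le_pow_right₀ hL1 (by norm_num)
        have h6 := mul_le_mul_of_nonneg_left this hLk.le
        linarith
      exact mul_le_mul hKC h5 (by positivity) (by positivity)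
    have h6 : 8 * (C * L ^ 2) ≤ 1 / 2 * (ρ * (1 / L ^ (2 * k)) * (x / L)) := by
      have e2 : 1 / 2 * (ρ * (1 / L ^ (2 * k)) * (x / L)) =
          (ρ * L) * (x / (L ^ (2 * k) * L ^ 2)) / 2 := by
        field_simp
      rw [e2]
      have h7 : L ^ 2 ≤ x / (L ^ (2 * k) * L ^ 2) := by
        rw [le_div_iff₀ (by positivity)]
        calc L ^ 2 * (L ^ (2 * k) * L ^ 2) = L ^ (2 * k + 4) := by rw [pow_add]; ring
          _ ≤ L ^ (2 * k + 6) := pow_le_pow_right₀ hL1 (by omega)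
          _ ≤ x := hx
      have h8 : (16 * C) * L ^ 2 ≤ (ρ * L) * (x / (L ^ (2 * k) * L ^ 2)) :=
        mul_le_mul hKC h7 (by positivity) (by positivity)
      linarith
    linarith
  · have h3 : ρ * (1 / L ^ (2 * k)) * (x / L) ^ 2 ≤ ρ * V ^ 2 * (x / L) ^ 2 := by gcongr
    refine le_trans ?_ h3
    have e2 : ρ * (1 / L ^ (2 * k)) * (x / L) ^ 2 = (ρ * L) * (x / (L ^ (2 * k) * L ^ 3)) * x := by
      field_simp
    rw [e2]
    have h7 : 1 ≤ x / (L ^ (2 * k) * L ^ 3) := by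
      rw [le_div_iff₀ (by positivity), one_mul, ← pow_add]
      exact (pow_le_pow_right₀ hL1 (by omega)).trans hx
    have h8 : (4 : ℝ) * 1 ≤ (ρ * L) * (x / (L ^ (2 * k) * L ^ 3)) :=
      mul_le_mul hKρ h7 (by norm_num) (by positivity)
    nlinarith

end TaskBX0K

open TaskBX0K

theorem BX0K (hFLWK : St_FLWK) (hCORK : St_CORK) (hVLBK : St_VLBK) (hWXS : St_WXS)
    (hGS : BX.St_GS) (hGW : BX.St_GW) : St_BX0K := by
  intro k M hk hM A₀ hA₀
  obtain ⟨εs, hεs, hflw⟩ := hFLWK k hk (1 / 40) (A₀ + 30) (by norm_num) (by linarith)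
  obtain ⟨c₂, hc₂, hvlb⟩ := hVLBK k hk
  obtain ⟨C, e₀, Nc, hC, hcor⟩ := hCORK k M hk hM
  refine ⟨e₀ + 2 * k + 10, min εs 1, lt_min hεs one_pos, ?_⟩
  intro ε₁ hε₁ hε₁s B hB
  have hε1 : ε₁ ≤ 1 := hε₁s.trans (min_le_right _ _)
  obtain ⟨Nf, hNf⟩ := hflw ε₁ hε₁ (hε₁s.trans (min_le_left _ _)) B (by omega)
  obtain ⟨Nv, hNv⟩ := hvlb M B (by omega) ε₁ hε₁ hε1
  set ρ : ℝ := Real.exp (-((A₀ + 30) / ε₁)) with hρ
  have hρ0 : 0 < ρ := Real.exp_pos _
  have hρ1 : ρ ≤ 1 := by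
    rw [hρ]
    apply Real.exp_le_one_iff.2
    have : 0 ≤ (A₀ + 30) / ε₁ := by positivity
    linarith
  have hρA : 1000000000 * ρ ≤ Real.exp (-(A₀ / ε₁)) := by
    have h1 : ρ = Real.exp (-(A₀ / ε₁)) * Real.exp (-(30 / ε₁)) := by
      rw [hρ, ← Real.exp_add]
      congr 1
      ring
    have h2 : Real.exp (-(30 / ε₁)) ≤ Real.exp (-30) := by
      apply Real.exp_le_exp.2
      have : 30 ≤ 30 / ε₁ := by
        rw [le_div_iff₀ hε₁]
        linarith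
      linarith
    have h3 : 1000000000 * Real.exp (-30) ≤ 1 := by
      have h4 : (1000000000 : ℝ) ≤ Real.exp 30 := by
        have h5 : Real.exp 30 = Real.exp 1 ^ 30 := by
          rw [← Real.exp_nat_mul]; norm_num
        rw [h5]
        calc (1000000000 : ℝ) ≤ 2.7 ^ 30 := by norm_num
          _ ≤ Real.exp 1 ^ 30 := pow_le_pow_left₀ (by norm_num)
            (by linarith [Real.exp_one_gt_d9]) 30
      have h6 : Real.exp 30 * Real.exp (-30) = 1 := by rw [← Real.exp_add]; simp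
      have h7 := Real.exp_pos (-30)
      nlinarith
    rw [h1]
    have h8 := Real.exp_pos (-(A₀ / ε₁))
    calc 1000000000 * (Real.exp (-(A₀ / ε₁)) * Real.exp (-(30 / ε₁)))
        = Real.exp (-(A₀ / ε₁)) * (1000000000 * Real.exp (-(30 / ε₁))) := by ring
      _ ≤ Real.exp (-(A₀ / ε₁)) * 1 := by
          apply mul_le_mul_of_nonneg_left _ h8.le
          linarith
      _ = _ := mul_one _
  -- large N
  have hev : ∀ᶠ N : ℕ in atTop, (2 : ℝ) ≤ (N : ℝ) ^ (1 / 80 : ℝ) ∧ 2 ≤ Real.log N ∧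
      Real.log N ^ (2 * k + 6) ≤ N ∧ 16 * C / ρ + 4 / ρ ≤ Real.log N ∧
      1 / c₂ + 1 ≤ Real.log (Real.log N) ∧ (k : ℝ) ≤ Real.log N := by
    have hcast := tendsto_natCast_atTop_atTop (R := ℝ)
    have t1 := ((tendsto_rpow_atTop (show (0 : ℝ) < 1 / 80 by norm_num)).comp
      hcast).eventually_ge_atTop 2
    have tl := Real.tendsto_log_atTop.comp hcast
    have t2 := tl.eventually_ge_atTop 2
    have t3 : ∀ᶠ x : ℝ in atTop, Real.log x ^ (2 * k + 6) ≤ x := by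
      have h := (Real.isLittleO_pow_log_id_atTop (n := 2 * k + 6)).bound (c := 1) one_pos
      filter_upwards [h, eventually_ge_atTop 1] with x hx hx1
      rw [one_mul, Real.norm_eq_abs, Real.norm_eq_abs] at hx
      have h2 : |id x| = x := abs_of_nonneg (by simp; linarith)
      rw [h2] at hx
      exact (le_abs_self _).trans hx
    have t3' := hcast.eventually t3
    have t4 := tl.eventually_ge_atTop (16 * C / ρ + 4 / ρ)
    have t5 := (Real.tendsto_log_atTop.comp tl).eventually_ge_atTop (1 / c₂ + 1)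
    have t6 := tl.eventually_ge_atTop (k : ℝ)
    filter_upwards [t1, t2, t3', t4, t5, t6] with N h1 h2 h3 h4 h5 h6
    exact ⟨h1, h2, h3, h4, h5, h6⟩
  obtain ⟨Ne, hNe⟩ := eventually_atTop.1 hev
  refine ⟨1000000000, Nc + Nf + Nv + Ne + 2, by norm_num, ?_⟩
  intro N hN f hf 𝒜 h𝒜 hdis
  obtain ⟨hg2, hL2, hL6, hLK, hLc, hLk⟩ := hNe N (by omega)
  have hN2 : 2 ≤ N := by omega
  have hNr : (2 : ℝ) ≤ N := by exact_mod_cast hN2
  have hN0 : (0 : ℝ) < N := by linarith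
  have hN1 : (1 : ℝ) ≤ N := by linarith
  set L := Real.log N with hLdef
  have hL0 : 0 < L := by linarith
  have hL1 : 1 ≤ L := by linarith
  set y : ℝ := L ^ B with hy
  have hLy : L ≤ y := by
    calc L = L ^ 1 := (pow_one _).symm
      _ ≤ L ^ B := pow_le_pow_right₀ hL1 (by omega)
  have hy2 : 2 ≤ y := hL2.trans hLy
  have hky : (k : ℝ) ≤ y := hLk.trans hLy
  have hP1 : ∀ p ∈ P1 N B ε₁, p.Prime ∧ y ≤ (p : ℝ) := by
    intro p hp
    unfold P1 at hp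
    rw [mem_filter] at hp
    exact ⟨hp.2.1, hp.2.2.1⟩
  have hPs : ∀ S, PK N B ε₁ S ⊆ P1 N B ε₁ := fun S p hp => by
    unfold PK at hp
    exact (@Finset.mem_filter _ _ (_) _ _).1 hp |>.1
  have hPK : ∀ S, ∀ p ∈ PK N B ε₁ S, p.Prime ∧ y ≤ (p : ℝ) ∧ gp S p := by
    intro S p hp
    have h1 := hP1 p (hPs S hp)
    unfold PK at hp
    exact ⟨h1.1, h1.2, ((@Finset.mem_filter _ _ (_) _ _).1 hp).2⟩
  set V := Vk k (P1 N B ε₁) with hVdef
  have hrange : ∀ P : Finset ℕ, P ⊆ P1 N B ε₁ → 0 ≤ Vk k P ∧ Vk k P ≤ 1 := by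
    intro P hP
    refine Vk_range fun p hp => ?_
    have h1 := (hP1 p (hP hp)).2
    exact ⟨by linarith, by linarith⟩
  obtain ⟨hV0, hV1⟩ := hrange (P1 N B ε₁) (Subset.refl _)
  rw [← hVdef] at hV0 hV1
  obtain ⟨hNv1, -, hNv3⟩ := hNv N (by omega)
  rw [← hVdef] at hNv1 hNv3
  have hVL : 1 / L ^ k ≤ V := by
    refine le_trans ?_ hNv1
    have h0 : 0 < 1 / c₂ := by positivity
    have h2 : 1 ≤ c₂ * Real.log L := by
      have h9 : 1 / c₂ ≤ Real.log L := by linarith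
      rw [div_le_iff₀ hc₂] at h9
      linarith
    have h3 : (1 : ℝ) ≤ B := by exact_mod_cast (by omega : 1 ≤ B)
    have h10 : 1 ≤ Real.log L := by linarith
    have h11 : Real.log L / L ≤ B * Real.log L / (ε₁ * L) := by
      rw [div_le_div_iff₀ hL0 (by positivity)]
      have h5 : ε₁ * L ≤ 1 * L := mul_le_mul_of_nonneg_right hε1 hL0.le
      have h6 : Real.log L * (ε₁ * L) ≤ Real.log L * (1 * L) :=
        mul_le_mul_of_nonneg_left h5 (by linarith)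
      have h7 : 1 * (Real.log L * L) ≤ B * (Real.log L * L) :=
        mul_le_mul_of_nonneg_right h3 (by positivity)
      linarith
    have h12 : (Real.log L / L) ^ k ≤ (B * Real.log L / (ε₁ * L)) ^ k :=
      pow_le_pow_left₀ (by positivity) h11 k
    have h13 : Real.log L ≤ Real.log L ^ k := by
      calc Real.log L = Real.log L ^ 1 := (pow_one _).symm
        _ ≤ Real.log L ^ k := pow_le_pow_right₀ h10 hk
    have h14 : 1 ≤ c₂ * Real.log L ^ k := h2.trans (mul_le_mul_of_nonneg_left h13 hc₂.le)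
    calc 1 / L ^ k ≤ (c₂ * Real.log L ^ k) / L ^ k := by
          apply div_le_div_of_nonneg_right h14 (by positivity)
      _ = c₂ * (Real.log L / L) ^ k := by rw [div_pow]; ring
      _ ≤ _ := mul_le_mul_of_nonneg_left h12 hc₂.le
  rcases 𝒜.eq_empty_or_nonempty with h𝒜e | ⟨S₀, hS₀⟩
  · rw [h𝒜e, sum_empty]
    apply mul_nonneg (sq_nonneg _)
    rw [card_empty]
    have := Real.exp_pos (-(A₀ / ε₁))
    have h1 : (0 : ℝ) ≤ 1000000000 * V := by linarith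
    simp only [Nat.cast_zero, mul_zero, add_zero]
    exact h1
  -- the sieve
  obtain ⟨D, hD⟩ : ∃ D : ℕ, D = ⌊(N : ℝ) ^ (1 / 40 : ℝ)⌋₊ := ⟨_, rfl⟩
  have hflwS : ∀ S : Finset (ℤ × ℕ), ∃ th dl : ℕ → ℝ,
      DW (PK N B ε₁ S) D L th ∧ DW (PK N B ε₁ S) D L dl ∧
      (∀ m : ℤ, xx (PK N B ε₁ S) m ≤ Ev th D m ∧ Ev th D m - xx (PK N B ε₁ S) m ≤ Ev dl D m) ∧
      |hatk k th D - Vk k (PK N B ε₁ S)| ≤ ρ * Vk k (PK N B ε₁ S) ∧
      |hatk k dl D| ≤ ρ * Vk k (PK N B ε₁ S) :=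
    fun S => hNf N (by omega) D hD (PK N B ε₁ S) (hPs S)
  choose th dl hth hdl hsand hhat hhatd using hflwS
  set VS : Finset (ℤ × ℕ) → ℝ := fun S => Vk k (PK N B ε₁ S) with hVS
  have hVS0 : ∀ S, 0 ≤ VS S := fun S => (hrange _ (hPs S)).1
  have hVS1 : ∀ S, VS S ≤ 1 := fun S => (hrange _ (hPs S)).2
  have hVS2 : ∀ S ∈ 𝒜, VS S ≤ 2 * V := fun S hS => (hNv3 S (h𝒜 S hS).sys).2
  have hgg : (N : ℝ) ^ (1 / 40 : ℝ) = (N : ℝ) ^ (1 / 80 : ℝ) * (N : ℝ) ^ (1 / 80 : ℝ) := by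
    rw [← Real.rpow_add hN0]; norm_num
  have hD1 : (D : ℝ) ≤ (N : ℝ) ^ (1 / 40 : ℝ) := by
    rw [hD]; exact Nat.floor_le (Real.rpow_nonneg hN0.le _)
  have hDg : (N : ℝ) ^ (1 / 80 : ℝ) ≤ D := by
    have hz2 : (N : ℝ) ^ (1 / 40 : ℝ) < D + 1 := by
      rw [hD]; exact Nat.lt_floor_add_one _
    rw [hgg] at hz2
    nlinarith
  have hD2 : 2 ≤ D := by
    have : (2 : ℝ) ≤ D := hg2.trans hDg
    exact_mod_cast this
  have hD20 : (D : ℝ) ≤ (N : ℝ) ^ (1 / 20 : ℝ) :=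
    hD1.trans (Real.rpow_le_rpow_of_exponent_le hN1 (by norm_num))
  have hlogD : L / 80 ≤ Real.log D := by
    have h1 : Real.log ((N : ℝ) ^ (1 / 80 : ℝ)) ≤ Real.log D :=
      Real.log_le_log (by linarith) hDg
    rw [Real.log_rpow hN0] at h1
    linarith
  obtain ⟨lam, hlam⟩ := hWXS D hD2
  set w : ℤ → ℝ := fun n => Wt N n * BX.nuS lam D n with hwdef
  have hw : Summable w := BX.TaskBK.summ_w (by omega) hlam.sw
  have hw0 : ∀ n, 0 ≤ w n := fun n => BX.TaskBK.w_nonneg N D lam n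
  set T : ℝ := N * LF lam D with hT
  set E : ℝ := C * L ^ 2 * (N * L ^ e₀ / y + 1) with hE
  have hE0 : 0 ≤ E := by positivity
  obtain ⟨hErr, hSmall⟩ := err_le (x := (N : ℝ)) (y := y) (k := k) (e := e₀) hC hρ0 hL2 hL6 hLK
    hVL hB hy
  rw [← hE] at hErr
  have hQ0 : 0 < (N : ℝ) / L := by positivity
  -- correlations
  have cor : ∀ S ∈ 𝒜, ∀ S' ∈ 𝒜, S ≠ S' → ∀ u u' : ℕ → ℝ, DW (PK N B ε₁ S) D L u →
      DW (PK N B ε₁ S') D L u' →
      |∑' n : ℤ, w n * (Ev u D (Fp S n) * Ev u' D (Fp S' n)) - T * (hatk k u D * hatk k u' D)| ≤ E :=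
    fun S hS S' hS' hne u u' hu hu' =>
      (hcor N (by omega) D D hD20 (by omega) hD20 lam hlam S (h𝒜 S hS) (PK N B ε₁ S) y hy2 hky
        (hPK S) L u hL1 hu).1 S' (h𝒜 S' hS') (hdis S hS S' hS' hne) (PK N B ε₁ S') (hPK S') u' hu'
  have cor1 : ∀ S ∈ 𝒜, ∀ u : ℕ → ℝ, DW (PK N B ε₁ S) D L u →
      |∑' n : ℤ, w n * Ev u D (Fp S n) - T * hatk k u D| ≤ E :=
    fun S hS u hu =>
      (hcor N (by omega) D D hD20 (by omega) hD20 lam hlam S (h𝒜 S hS) (PK N B ε₁ S) y hy2 hky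
        (hPK S) L u hL1 hu).2
  have cor00 : |∑' n : ℤ, w n * 1 - T| ≤ E := by
    have h := cor1 S₀ hS₀ th1 (dw_th1 (by omega) hL1)
    simp only [Ev_th1 (show 1 ≤ D by omega), hatk_th1 (k := k) (show 1 ≤ D by omega),
      mul_one] at h
    simpa using h
  -- size of T
  have hLF : LF lam D ≤ 160 / L := by
    have h1 : LF lam D ≤ 2 / Real.log D := hlam.sw.form
    refine h1.trans ?_
    rw [div_le_div_iff₀ (by linarith) hL0]
    linarith
  have hEV : 8 * E ≤ V * (N / L) := by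
    refine hErr.trans ?_
    have : ρ * V ^ 2 ≤ V := by
      calc ρ * V ^ 2 ≤ 1 * V ^ 2 := by gcongr
        _ = V * V := by ring
        _ ≤ V * 1 := mul_le_mul_of_nonneg_left hV1 hV0
        _ = V := mul_one _
    gcongr
  have hEN : E ≤ N / L := by
    have : V * (N / L) ≤ 1 * (N / L) := by gcongr
    linarith
  have hsum1 : 0 ≤ ∑' n : ℤ, w n * 1 := tsum_nonneg fun n => by
    rw [mul_one]; exact hw0 n
  have hTabs : |T| ≤ 160 * (N / L) := by
    have h1 := abs_le.1 cor00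
    rw [abs_le]
    constructor
    · linarith
    · rw [hT]
      calc (N : ℝ) * LF lam D ≤ N * (160 / L) := mul_le_mul_of_nonneg_left hLF hN0.le
        _ = 160 * (N / L) := by ring
  -- the functions
  set r : Finset (ℤ × ℕ) → ℤ → ℝ := fun S n => xx (PK N B ε₁ S) (Fp S n) - VS S with hr
  set G : ℝ := 961 * (V * (N / L)) with hG
  set O : ℝ := 4481 * (ρ * V ^ 2 * (N / L)) with hO
  have hG0 : 0 ≤ G := by positivity
  have hO0 : 0 ≤ O := by positivity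
  have hdiag : ∀ S ∈ 𝒜, ∑' n : ℤ, w n * (r S n * r S n) ≤ G := by
    intro S hS
    have h := core_diag hw hw0 (x := fun n => xx (PK N B ε₁ S) (Fp S n))
      (Θ := fun n => Ev (th S) D (Fp S n))
      (T := T) (M := hatk k (th S) D) (V := VS S) (ρ := ρ) (E := E) (fun n => xx_nonneg _ _)
      (fun n => xx_le_one _ _) (fun n => (hsand S _).1) (Bd_Ev (th S) D _)
      (cor1 S hS (th S) (hth S)) cor00 (hhat S) hρ1 (hVS0 S) (hVS1 S)
    refine h.trans ?_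
    have h2 : |T| * VS S ≤ 160 * (N / L) * (2 * V) :=
      mul_le_mul hTabs (hVS2 S hS) (hVS0 S) (by positivity)
    rw [hG]
    nlinarith
  have hoff : ∀ S ∈ 𝒜, ∀ S' ∈ 𝒜, S ≠ S' → |∑' n : ℤ, w n * (r S n * r S' n)| ≤ O := by
    intro S hS S' hS' hne
    have h := core_off hw hw0 (x := fun n => xx (PK N B ε₁ S) (Fp S n))
      (x' := fun n => xx (PK N B ε₁ S') (Fp S' n))
      (Θ := fun n => Ev (th S) D (Fp S n)) (Θ' := fun n => Ev (th S') D (Fp S' n))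
      (Δ := fun n => Ev (dl S) D (Fp S n)) (Δ' := fun n => Ev (dl S') D (Fp S' n))
      (T := T) (M := hatk k (th S) D) (M' := hatk k (th S') D) (md := hatk k (dl S) D)
      (md' := hatk k (dl S') D) (V := VS S) (V' := VS S') (ρ := ρ) (E := E)
      (fun n => xx_nonneg _ _) (fun n => xx_le_one _ _) (fun n => (hsand S _).1)
      (fun n => (hsand S _).2)
      (fun n => xx_nonneg _ _) (fun n => xx_le_one _ _) (fun n => (hsand S' _).1)
      (fun n => (hsand S' _).2) (Bd_Ev _ D _) (Bd_Ev _ D _) (Bd_Ev _ D _) (Bd_Ev _ D _)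
      (cor S hS S' hS' hne _ _ (hth S) (hth S')) (cor S hS S' hS' hne _ _ (hdl S) (hth S'))
      (cor S hS S' hS' hne _ _ (hth S) (hdl S'))
      (cor1 S hS _ (hth S)) (cor1 S' hS' _ (hth S'))
      (cor1 S hS _ (hdl S)) (cor1 S' hS' _ (hdl S'))
      cor00 (hhat S) (hhatd S) (hhat S') (hhatd S') hρ0.le hρ1 (hVS0 S) (hVS1 S) (hVS0 S')
      (hVS1 S')
    refine h.trans ?_
    have h3 : VS S * VS S' ≤ (2 * V) * (2 * V) :=
      mul_le_mul (hVS2 S hS) (hVS2 S' hS') (hVS0 S') (by positivity)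
    have h4 : ρ * (VS S * VS S') ≤ ρ * (4 * V ^ 2) := by
      apply mul_le_mul_of_nonneg_left _ hρ0.le
      linarith
    have h2 : |T| * (ρ * (VS S * VS S')) ≤ 160 * (N / L) * (ρ * (4 * V ^ 2)) :=
      mul_le_mul hTabs h4 (mul_nonneg hρ0.le (mul_nonneg (hVS0 S) (hVS0 S'))) (by positivity)
    rw [hO]
    linarith
  have hw25 : ∀ p ∈ (Icc 1 N).filter (fun p => p.Prime ∧ D < p), (1 : ℝ) ≤ 25 * w (p : ℤ) := by
    intro p hp
    rw [mem_filter, mem_Icc] at hp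
    exact BX.TaskBK.w_prime hlam.sw (by omega) hp.2.1 hp.2.2 hp.1.2
  have bxx : ∀ S : Finset (ℤ × ℕ), Bd (fun n => xx (PK N B ε₁ S) (Fp S n)) := fun S =>
    ⟨1, fun n => by rw [abs_of_nonneg (xx_nonneg _ _)]; exact xx_le_one _ _⟩
  have hdu := W74.SG.DUg.du w hw0 ((Icc 1 N).filter (fun p => p.Prime ∧ D < p)) hw25 𝒜 r f
    (fun S _ S' _ => summ hw hw0 (((bxx S).sub (Bd.const (VS S))).mul
      ((bxx S').sub (Bd.const (VS S')))))
    G O hdiag hG0 hO0 hoff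
  have hFs : ∑ p ∈ (Icc 1 N).filter (fun p => p.Prime ∧ D < p), f p ^ 2 ≤ 4025 * (N / L) := by
    have h2 : ∑ p ∈ (Icc 1 N).filter (fun p => p.Prime ∧ D < p), w (p : ℤ) ≤
        ∑' n : ℤ, w n := by
      have h3 := hw.sum_le_tsum
        (((Icc 1 N).filter (fun p => p.Prime ∧ D < p)).map
          ⟨(fun p : ℕ => (p : ℤ)), Nat.cast_injective⟩)
        (fun n _ => hw0 n)
      rw [sum_map] at h3
      exact h3
    have h4 : ∑' n : ℤ, w n ≤ 161 * (N / L) := by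
      have h5 := (abs_le.1 cor00).2
      have h6 : ∑' n : ℤ, w n * 1 = ∑' n : ℤ, w n := tsum_congr fun n => mul_one _
      rw [h6] at h5
      have h7 := (abs_le.1 hTabs).2
      linarith
    calc ∑ p ∈ (Icc 1 N).filter (fun p => p.Prime ∧ D < p), f p ^ 2
        ≤ ∑ p ∈ (Icc 1 N).filter (fun p => p.Prime ∧ D < p), 25 * w (p : ℤ) := by
          refine sum_le_sum fun p hp => le_trans ?_ (hw25 p hp)
          rw [← sq_abs]
          exact pow_le_one₀ (abs_nonneg _) (hf p)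
      _ = 25 * ∑ p ∈ (Icc 1 N).filter (fun p => p.Prime ∧ D < p), w (p : ℤ) := by rw [mul_sum]
      _ ≤ 25 * (161 * (N / L)) := by linarith
      _ = 4025 * (N / L) := by ring
  -- the small primes
  have hsplit : ∀ S ∈ 𝒜, (∑ p ∈ (Icc 1 N).filter Nat.Prime,
      f p * (xx (PK N B ε₁ S) (Fp S p) - VS S)) ^ 2 ≤
      2 * (∑ p ∈ (Icc 1 N).filter (fun p => p.Prime ∧ D < p), f p * r S p) ^ 2 +
        2 * (D : ℝ) ^ 2 := by
    intro S _
    set S1 := (Icc 1 N).filter (fun p => p.Prime ∧ D < p) with hS1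
    set S2 := (Icc 1 N).filter (fun p => p.Prime ∧ p ≤ D) with hS2
    have hu : (Icc 1 N).filter Nat.Prime = S1 ∪ S2 := by
      ext p
      rw [hS1, hS2, mem_union, mem_filter, mem_filter, mem_filter]
      constructor
      · rintro ⟨h1, h2⟩
        rcases Nat.lt_or_ge D p with h | h
        · exact Or.inl ⟨h1, h2, h⟩
        · exact Or.inr ⟨h1, h2, h⟩
      · rintro (⟨h1, h2, -⟩ | ⟨h1, h2, -⟩) <;> exact ⟨h1, h2⟩
    have hdisj : Disjoint S1 S2 := by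
      rw [Finset.disjoint_left]
      intro p h1 h2
      rw [hS1, mem_filter] at h1
      rw [hS2, mem_filter] at h2
      omega
    rw [hu, sum_union hdisj]
    have hE2 : |∑ p ∈ S2, f p * (xx (PK N B ε₁ S) (Fp S p) - VS S)| ≤ D := by
      refine (abs_sum_le_sum_abs _ _).trans ?_
      refine (sum_le_card_nsmul _ _ 1 (fun p _ => ?_)).trans ?_
      · rw [abs_mul]
        have h1 : |xx (PK N B ε₁ S) (Fp S p) - VS S| ≤ 1 := by
          have h2 := xx_nonneg (PK N B ε₁ S) (Fp S p)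
          have h3 := xx_le_one (PK N B ε₁ S) (Fp S p)
          have h4 := hVS0 S
          have h5 := hVS1 S
          rw [abs_le]
          constructor <;> linarith
        calc |f p| * |xx (PK N B ε₁ S) (Fp S p) - VS S| ≤ 1 * 1 :=
              mul_le_mul (hf p) h1 (abs_nonneg _) zero_le_one
          _ = 1 := one_mul 1
      · rw [nsmul_eq_mul, mul_one]
        have h1 : S2 ⊆ Icc 1 D := by
          intro p hp
          rw [hS2, mem_filter, mem_Icc] at hp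
          rw [mem_Icc]
          exact ⟨hp.1.1, hp.2.2⟩
        have h2 := card_le_card h1
        rw [Nat.card_Icc] at h2
        exact_mod_cast (by omega : S2.card ≤ D)
    have h2 : (∑ p ∈ S2, f p * (xx (PK N B ε₁ S) (Fp S p) - VS S)) ^ 2 ≤ (D : ℝ) ^ 2 := by
      rw [← sq_abs]
      exact pow_le_pow_left₀ (abs_nonneg _) hE2 2
    have h3 : ∑ p ∈ S1, f p * r S p = ∑ p ∈ S1, f p * (xx (PK N B ε₁ S) (Fp S p) - VS S) := rfl
    rw [h3]
    nlinarith [sq_nonneg (∑ p ∈ S1, f p * (xx (PK N B ε₁ S) (Fp S p) - VS S) -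
      ∑ p ∈ S2, f p * (xx (PK N B ε₁ S) (Fp S p) - VS S))]
  have hDD : (D : ℝ) ^ 2 ≤ N := by
    have h1 : (D : ℝ) ^ 2 ≤ ((N : ℝ) ^ (1 / 40 : ℝ)) ^ 2 :=
      pow_le_pow_left₀ (Nat.cast_nonneg _) hD1 2
    refine h1.trans ?_
    rw [← Real.rpow_natCast, ← Real.rpow_mul hN0.le]
    calc (N : ℝ) ^ ((1 / 40 : ℝ) * ((2 : ℕ) : ℝ)) ≤ (N : ℝ) ^ (1 : ℝ) :=
          Real.rpow_le_rpow_of_exponent_le hN1 (by norm_num)
      _ = N := Real.rpow_one _
  have hc0 : (0 : ℝ) ≤ 𝒜.card := Nat.cast_nonneg _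
  set c := (𝒜.card : ℝ) with hc
  have hY : ∑ S ∈ 𝒜, (∑ p ∈ (Icc 1 N).filter (fun p => p.Prime ∧ D < p), f p * r S p) ^ 2 ≤
      25 * (4025 * (N / L)) * (G + c * O) := by
    refine hdu.trans ?_
    have : 0 ≤ G + c * O := by positivity
    apply mul_le_mul_of_nonneg_right _ this
    linarith
  calc ∑ S ∈ 𝒜, (∑ p ∈ (Icc 1 N).filter Nat.Prime,
        f p * (xx (PK N B ε₁ S) (Fp S p) - VS S)) ^ 2
      ≤ ∑ S ∈ 𝒜, (2 * (∑ p ∈ (Icc 1 N).filter (fun p => p.Prime ∧ D < p), f p * r S p) ^ 2 +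
        2 * (D : ℝ) ^ 2) := sum_le_sum hsplit
    _ = 2 * ∑ S ∈ 𝒜, (∑ p ∈ (Icc 1 N).filter (fun p => p.Prime ∧ D < p), f p * r S p) ^ 2 +
        c * (2 * (D : ℝ) ^ 2) := by
        rw [sum_add_distrib, ← mul_sum, sum_const, nsmul_eq_mul]
    _ ≤ 2 * (25 * (4025 * (N / L)) * (G + c * O)) + c * (ρ * V ^ 2 * (N / L) ^ 2) := by
        have h1 : c * (2 * (D : ℝ) ^ 2) ≤ c * (ρ * V ^ 2 * (N / L) ^ 2) :=
          mul_le_mul_of_nonneg_left (by linarith) hc0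
        linarith
    _ = (N / L) ^ 2 * (193401250 * V + 901801251 * ρ * (V ^ 2 * c)) := by
        rw [hG, hO]; ring
    _ ≤ (N / L) ^ 2 * (1000000000 * V + Real.exp (-(A₀ / ε₁)) * V ^ 2 * c) := by
        apply mul_le_mul_of_nonneg_left _ (by positivity)
        have h1 : 901801251 * ρ * (V ^ 2 * c) ≤ Real.exp (-(A₀ / ε₁)) * (V ^ 2 * c) := by
          apply mul_le_mul_of_nonneg_right _ (by positivity)
          linarith
        have h2 : 193401250 * V ≤ 1000000000 * V := by linarith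
        linarith

end Pool.Agent.W976.KS
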